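import Pool.Agent.T6.H15.AJ.ZeroDefs

/-!
# Bloch's conjecture for correspondences to a surface: definitions
-/

open CategoryTheory
open Pool.Agent.H914 Pool.Agent.H914.VarClass Pool.Agent.H914.VarClass.Obj Pool.Agent.R903
open Pool.Agent.T6.H15.BB Pool.Agent.T6.H15.AJ

universe u v w

namespace Pool.Agent.T6.H15.BC

/-- The difference `γ - ∑ i, f i`. -/
def subSum {A : Type v} [CommRing A] {n : ℕ} (γ : A) (f : Fin n → A) : A := γ - ∑ i, f i

variable {k : Type u} [Field k] {𝒱 : VarClass k} {C : ChowTheory.{u, v} 𝒱}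
  {W : WeilTheory.{u, v, w} C}

/-- The morphisms `V → X`. -/
abbrev Mor (V X : 𝒱.Obj) : Type u := V ⟶ X

/-- For surfaces `Y` and `X` and `γ` in `CH^2(Y × X)`: on `H^2(Y)` the correspondence `γ` acts as a
sum of products `D × D'` of divisor classes. Over the complex numbers this means, by the Lefschetz
theorem on classes of type `(1, 1)`, that `γ` acts as zero on the holomorphic `2`-forms. -/
def ActsByDivisors (W : WeilTheory.{u, v, w} C) {Y X : 𝒱.Obj} (γ : C.CH (Y.prod X)) : Prop :=
  ∃ (n : ℕ) (D : Fin n → C.CH Y) (D' : Fin n → C.CH X),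
    (∀ i, InCH C Y 1 (D i)) ∧ (∀ i, InCH C X 1 (D' i)) ∧
      Kills W (subSum γ fun i => extProd C (D i) (D' i)) 2

/-- `P` dominates `X`: there are a morphism `f : P → X` and a class `u` in `CH^r(P)`, where
`r = dim P - dim X`, such that `f_* u` is a nonzero multiple of the class of `X`. (If `P` is
projective then this holds for each surjective morphism `f`.) -/
def Dominates (C : ChowTheory.{u, v} 𝒱) (P X : 𝒱.Obj) : Prop :=
  ∃ (f : Mor P X) (r : ℕ) (u : C.CH P) (q : ℚ), r + X.dim = P.dim ∧ InCH C P r u ∧ q ≠ 0 ∧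
    applyLin (C.push f) u = q • 1

/-- `Y` is dominated by a product of curves. -/
def ByCurves (C : ChowTheory.{u, v} 𝒱) (Y : 𝒱.Obj) : Prop := ∃ P, IsCurveProd P ∧ Dominates C P Y

/-- `Γ_* t = 0`. -/
def ActsNull (C : ChowTheory.{u, v} 𝒱) {Y X : 𝒱.Obj} (Γ : C.CH (Y.prod X)) (t : C.CH Y) : Prop :=
  corrAct C Γ t = 0

/-- The Abel–Jacobi map `CH^m_hom(X) → J^m(X)` maps `x` to zero. -/
def InKer (A : AJTheory W) {X : 𝒱.Obj} (m : ℕ) (x : C.CH X) : Prop := A.aj X m x = 0

/-- The open direction of **Bloch's conjecture** for the correspondences in `CH^2(Y × X)`, `Y` a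
surface dominated by a product of curves: if `Γ` acts on `H^2(Y)` as a sum of products of divisors
(over the complex numbers: if `Γ` acts as zero on the holomorphic `2`-forms) then `Γ` acts as zero on
the kernel of the Abel–Jacobi (Albanese) map on the zero-cycles of degree zero on `Y`. -/
def BlochFor (A : AJTheory W) (X : 𝒱.Obj) : Prop :=
  ∀ (Y : 𝒱.Obj) (Γ : C.CH (Y.prod X)) (t : C.CH Y), Y.dim = 2 → ByCurves C Y →
    InCH C (Y.prod X) 2 Γ → ActsByDivisors W Γ → HomTrivial W Y 2 t → InKer A 2 t →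
    ActsNull C Γ t

/-- Homologically trivial correspondences in `CH^2((E × E') × X)`, `E` and `E'` curves, kill the
products of classes of degree zero. -/
def PairsFor (W : WeilTheory.{u, v, w} C) (X : 𝒱.Obj) : Prop :=
  ∀ (E E' : 𝒱.Obj) (Γ : C.CH ((E.prod E').prod X)) (y : C.CH E) (y' : C.CH E'), E.dim = 1 →
    E'.dim = 1 → HomTrivial W ((E.prod E').prod X) 2 Γ → HomTrivial W E 1 y →
    HomTrivial W E' 1 y' → ActsNull C Γ (extProd C y y')

/-- Homologically trivial correspondences in `CH^2(Y × X)` kill the kernel of the Abel–Jacobi map on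
the zero-cycles of degree zero on `Y`, for all `Y` dominated by products of curves. -/
def ZeroCyclesFor (A : AJTheory W) (X : 𝒱.Obj) : Prop :=
  ∀ (Y : 𝒱.Obj) (Γ : C.CH (Y.prod X)) (t : C.CH Y), ByCurves C Y →
    HomTrivial W (Y.prod X) 2 Γ → HomTrivial W Y Y.dim t → InKer A Y.dim t → ActsNull C Γ t

/-- The algebraically trivial classes in `CH^2(E × X)`, `E` a curve, in the kernel of the
Abel–Jacobi map kill the classes of degree zero on `E`. -/
def AlgKernelFor (A : AJTheory W) (X : 𝒱.Obj) : Prop :=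
  ∀ (E : 𝒱.Obj) (δ : C.CH (E.prod X)) (y : C.CH E), E.dim = 1 →
    AlgTrivial W (E.prod X) 2 δ → InKer A 2 δ → HomTrivial W E 1 y → ActsNull C δ y

/-- The algebraically trivial classes in `CH^c(Y × X)` in the kernel of the Abel–Jacobi map kill
the algebraically trivial classes in `CH^n(Y)`, for all `Y`, where `n + c = dim Y + 2`. -/
def AlgKernelAll (A : AJTheory W) (X : 𝒱.Obj) : Prop :=
  ∀ (Y : 𝒱.Obj) (n c : ℕ) (δ : C.CH (Y.prod X)) (x : C.CH Y), n + c = Y.dim + 2 →
    AlgTrivial W (Y.prod X) c δ → InKer A c δ → AlgTrivial W Y n x → ActsNull C δ x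

/-- `f_* (x y z) = 0` for algebraically trivial `x` and `y` in `CH^a(V)` and `CH^b(V)` and
homologically trivial `z` in `CH^c(V)`. -/
def Triples (W : WeilTheory.{u, v, w} C) {V X : 𝒱.Obj} (f : Mor V X) (a b c : ℕ) : Prop :=
  ∀ x y z : C.CH V, AlgTrivial W V a x → AlgTrivial W V b y → HomTrivial W V c z →
    applyLin (C.push f) (x * y * z) = 0

/-- `f_* (D D' z) = 0` for `f : V → X`, `dim V = 4`, algebraically trivial divisor classes `D` and `D'`
and homologically trivial `z` in `CH^2(V)`. -/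
def DivisorsFor (W : WeilTheory.{u, v, w} C) (X : 𝒱.Obj) : Prop :=
  ∀ (V : 𝒱.Obj) (f : Mor V X), V.dim = 4 → Triples W f 1 1 2

/-- `f_* (x y z) = 0` for `f : V → X`, algebraically trivial `x` and `y` and homologically trivial `z`
whose codimensions add up to `dim V`. -/
def TriplesFor (W : WeilTheory.{u, v, w} C) (X : 𝒱.Obj) : Prop :=
  ∀ (V : 𝒱.Obj) (f : Mor V X) (a b c : ℕ), a + b + c = V.dim → Triples W f a b c

/-- The homologically trivial classes in `CH^2(E × X)`, `E` a curve, in the kernel of the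
Abel–Jacobi map kill the classes of degree zero on `E`. -/
def HomKernelFor (A : AJTheory W) (X : 𝒱.Obj) : Prop :=
  ∀ (E : 𝒱.Obj) (δ : C.CH (E.prod X)) (y : C.CH E), E.dim = 1 →
    HomTrivial W (E.prod X) 2 δ → InKer A 2 δ → HomTrivial W E 1 y → ActsNull C δ y

/-- The homologically trivial correspondences in `CH^c(Y × X)` kill the algebraically trivial
classes in `CH^n(Y)` in the kernel of the Abel–Jacobi map, for all `Y` and `n ≥ 1`, where
`n + c = dim Y + 2`. -/
def AllSourcesFor (A : AJTheory W) (X : 𝒱.Obj) : Prop :=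
  ∀ (Y : 𝒱.Obj) (n c : ℕ) (Γ : C.CH (Y.prod X)) (t : C.CH Y), n + c = Y.dim + 2 → 1 ≤ n →
    HomTrivial W (Y.prod X) c Γ → AlgTrivial W Y n t → InKer A n t → ActsNull C Γ t

/-- Bloch's conjecture (the open direction) for all correspondences between surfaces `Y` and `X`
dominated by a product of curves and by a product of two curves. -/
def BlochTwo (A : AJTheory W) : Prop :=
  ∀ E E' X : 𝒱.Obj, E.dim = 1 → E'.dim = 1 → X.dim = 2 → Dominates C (E.prod E') X → BlochFor A X

/-- The algebraically trivial one-cycles on products `E₁ × E₂ × E₃` of curves in the kernel of the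
Abel–Jacobi map kill the classes of degree zero on `E₁`. -/
def ThreeCurves (A : AJTheory W) : Prop :=
  ∀ E₂ E₃ : 𝒱.Obj, E₂.dim = 1 → E₃.dim = 1 → AlgKernelFor A (E₂.prod E₃)

end Pool.Agent.T6.H15.BC
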