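import Pool.Agent.T6.H15.AJ.Zero
import Pool.Agent.T6.H15.BC.Defs

/-!
# Bloch's conjecture for correspondences to a surface
-/

open CategoryTheory CategoryTheory.Limits AlgebraicGeometry
open Pool.Agent.H914 Pool.Agent.H914.VarClass Pool.Agent.H914.VarClass.Obj Pool.Agent.R903
open Pool.Agent.R903.WeilTheory Pool.Agent.T6.H15.BB Pool.Agent.T6.H15.AJ

universe u v w

namespace Pool.Agent.T6.H15.BC

variable {k : Type u} [Field k] {𝒱 : VarClass k} {C : ChowTheory.{u, v} 𝒱}
  {W : WeilTheory.{u, v, w} C} {X Y Y' Z Z' E E' : 𝒱.Obj}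

/-- the classes `β_* (y × y')`, `E` and `E'` curves, `y`, `y'` of degree zero -/
def PairSet (W : WeilTheory.{u, v, w} C) (Z : 𝒱.Obj) (n : ℕ) : Set (C.CH Z) :=
  {t | ∃ (E E' : 𝒱.Obj) (β : C.CH ((E.prod E').prod Z)) (y : C.CH E) (y' : C.CH E'),
    E.dim = 1 ∧ E'.dim = 1 ∧ β ∈ C.gr ((E.prod E').prod Z) n ∧ HomTrivial W E 1 y ∧
      HomTrivial W E' 1 y' ∧ t = C.act β (C.ext y y')}

/-- their span -/
def PS (W : WeilTheory.{u, v, w} C) (Z : 𝒱.Obj) (n : ℕ) : Submodule ℚ (C.CH Z) :=
  Submodule.span ℚ (PairSet W Z n)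

lemma dim2 (hE : E.dim = 1) (hE' : E'.dim = 1) : (E.prod E').dim = 2 := by
  rw [dim_prod, hE, hE']

lemma PS_act {n c n' : ℕ} {t : C.CH Z} (ht : t ∈ PS W Z n) {γ : C.CH (Z.prod Z')}
    (hγ : γ ∈ C.gr (Z.prod Z') c) (h : n + c = n' + Z.dim) : C.act γ t ∈ PS W Z' n' := by
  induction ht using Submodule.span_induction with
  | mem x hx =>
    obtain ⟨E, E', β, y, y', hE, hE', hβ, hy, hy', rfl⟩ := hx
    refine Submodule.subset_span ⟨E, E', C.comp β γ, y, y', hE, hE', C.comp_mem hβ hγ h, hy, hy',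
      ?_⟩
    rw [C.act_comp]
  | zero => rw [map_zero]; exact Submodule.zero_mem _
  | add x y _ _ hx hy => rw [map_add]; exact Submodule.add_mem _ hx hy
  | smul q x _ hx => rw [map_smul]; exact Submodule.smul_mem _ _ hx

lemma PS_ext {a b : ℕ} {x : C.CH Y} {y : C.CH Y'} (hx : AlgTrivial W Y a x)
    (hy : AlgTrivial W Y' b y) : C.ext x y ∈ PS W (Y.prod Y') (a + b) := by
  obtain ⟨ι, _, E, α, u, hE, hα, hu, rfl⟩ := hx
  obtain ⟨κ, _, E', β, u', hE', hβ, hu', rfl⟩ := hy
  rw [ext_sum_left]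
  refine Submodule.sum_mem _ fun i _ => ?_
  rw [ext_sum_right]
  refine Submodule.sum_mem _ fun j _ => ?_
  rw [corrAct_eq, corrAct_eq, ← act_opMg_ext, ← act_opLg_ext]
  have h1 : opLg (E i) (β j) ∈ C.gr (((E i).prod (E' j)).prod ((E i).prod Y')) (1 + b) :=
    C.span_mem _ _ (C.pull_mem _ (hβ j)) (by simp only [dim_prod, hE i, hE' j]; omega)
  have h2 : opMg (α i) Y' ∈ C.gr (((E i).prod Y').prod (Y.prod Y')) (a + Y'.dim) :=
    C.span_mem _ _ (C.pull_mem _ (hα i)) (by simp only [dim_prod, hE i]; omega)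
  refine Submodule.subset_span ⟨E i, E' j, C.comp (opLg (E i) (β j)) (opMg (α i) Y'), u i, u' j,
    hE i, hE' j, C.comp_mem h1 h2 (by rw [dim_prod, hE i]; omega), hu i, hu' j, ?_⟩
  rw [C.act_comp]

lemma PairsFor.kill (h : PairsFor W X) {n c : ℕ} {t : C.CH Z} (ht : t ∈ PS W Z n)
    {γ : C.CH (Z.prod X)} (hγ : HomTrivial W (Z.prod X) c γ) (hd : n + c = 2 + Z.dim) :
    C.act γ t = 0 := by
  induction ht using Submodule.span_induction with
  | mem x hx =>
    obtain ⟨E, E', β, y, y', hE, hE', hβ, hy, hy', rfl⟩ := hx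
    rw [← C.act_comp]
    exact h E E' _ y y' hE hE' (HomTrivial.comp_right hβ hγ hd) hy hy'
  | zero => rw [map_zero]
  | add x y _ _ hx hy => rw [map_add, hx, hy, add_zero]
  | smul q x _ hx => rw [map_smul, hx, smul_zero]

/-- the middle projector of a curve lives in degree one -/
lemma kills_curveProj (hE : E.dim = 1) {e : C.CH E} (he : e ∈ C.gr E 1) (hd : C.deg E e = 1)
    (l : ℕ) (hl : l ≠ 1) : Kills W (curveProj C e) l := by
  intro a ha
  have h1 : W.act (curveProj C e) a = if l = 1 then a else 0 :=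
    (isCK_curveCK (W := W) hE he hd).proj 1 l a ha
  rw [h1, if_neg hl]

/-- correspondences in `CH^2((E × E') × X)` which are zero on `H^2(E × E')` -/
lemma PairsFor.kills (hC : C.Polarized) (h : PairsFor W X)
    (hE : E.dim = 1) (hE' : E'.dim = 1) {Γ : C.CH ((E.prod E').prod X)}
    (hΓ : Γ ∈ C.gr ((E.prod E').prod X) 2) (hk : Kills W Γ 2) {y : C.CH E} {y' : C.CH E'}
    (hy : HomTrivial W E 1 y) (hy' : HomTrivial W E' 1 y') : C.act Γ (C.ext y y') = 0 := by
  obtain ⟨e, he, hd⟩ := exists_deg_one hC hE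
  obtain ⟨e', he', hd'⟩ := exists_deg_one hC hE'
  have hp : curveProj C e ∈ C.gr (E.prod E) 1 := curveProj_mem hE he
  have hp' : curveProj C e' ∈ C.gr (E'.prod E') 1 := curveProj_mem hE' he'
  have hT : C.tensor (curveProj C e) (curveProj C e') ∈ C.gr _ 2 := C.tensor_mem hp hp'
  have hT0 : HomTrivial W ((E.prod E').prod X) 2
      (C.comp (C.tensor (curveProj C e) (curveProj C e')) Γ) := by
    refine homTrivial_mk (C.comp_mem hT hΓ (by rw [dim2 hE hE'])) ?_
    refine cl_eq_zero W fun l a ha => ?_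
    rw [W.act_comp _ hΓ]
    by_cases hl : l = 2
    · subst hl
      exact hk _ (act_mem_H hT ha (by rw [dim2 hE hE']))
    · have h1 : Kills W (C.tensor (curveProj C e) (curveProj C e')) l :=
        kills_tensor (a := 1) (b := 1) (by rw [hE]; exact hp) (by rw [hE']; exact hp')
          (kills_curveProj hE he hd) (kills_curveProj hE' he' hd') hl
      rw [h1 a ha, map_zero]
  have h2 : corrAct C _ _ = 0 := h E E' _ y y' hE hE' hT0 hy hy'
  rw [corrAct_eq, extProd_eq, C.act_comp, C.tensor_eq, C.act_comp, C.act_opM_ext, C.act_opL_ext,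
    act_curveProj e hy, act_curveProj e' hy'] at h2
  exact h2

lemma PairsFor.kill2 (hC : C.Polarized) (h : PairsFor W X) (hY : Y.dim = 2) {t : C.CH Y}
    (ht : t ∈ PS W Y 2) {γ : C.CH (Y.prod X)} (hγ : γ ∈ C.gr (Y.prod X) 2)
    (hk : Kills W γ 2) : C.act γ t = 0 := by
  induction ht using Submodule.span_induction with
  | mem x hx =>
    obtain ⟨E, E', β, y, y', hE, hE', hβ, hy, hy', rfl⟩ := hx
    rw [← C.act_comp]
    refine h.kills hC hE hE' (C.comp_mem hβ hγ (by rw [hY])) ?_ hy hy'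
    intro a ha
    rw [W.act_comp _ hγ]
    exact hk _ (act_mem_H hβ ha (by rw [dim2 hE hE']))
  | zero => rw [map_zero]
  | add x y _ _ hx hy => rw [map_add, hx, hy, add_zero]
  | smul q x _ hx => rw [map_smul, hx, smul_zero]

variable (A : AJTheory W)

/-- the kernel of the Abel-Jacobi map on the zero-cycles of a product of curves -/
lemma kernel_curveProd (hC : C.Polarized) (hP : PointsArePairs C) {P : 𝒱.Obj}
    (h : IsCurveProd P) : ∀ x, HomTrivial W P P.dim x → A.aj P P.dim x = 0 →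
      x ∈ PS W P P.dim := by
  induction h with
  | @curve E hE =>
    intro x hx hx0
    rw [hE] at hx hx0
    rw [A.curve_inj E x hE hx hx0]
    exact Submodule.zero_mem _
  | @prod X Y hX hY ih ih' =>
    intro x hx hx0
    obtain ⟨o, ho, hd⟩ := exists_point hC X
    obtain ⟨o', ho', hd'⟩ := exists_point hC Y
    obtain ⟨a, b, ι, _, p, q, ha, hb, hp, hq, hxe⟩ := decompose hP ho ho' hd hd' hx
    have h2 : C.push (snd X Y) x = b := by
      rw [hxe, map_add, map_add, push_snd_ext, push_snd_ext, hd, one_smul,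
        HomTrivial.deg_self W ha, zero_smul, add_zero, map_sum]
      rw [Finset.sum_eq_zero, add_zero]
      intro i _
      rw [push_snd_ext, HomTrivial.deg_self W (hp i), zero_smul]
    have h3 : C.push (fst X Y) x = a := by
      rw [hxe, map_add, map_add, push_fst_ext, push_fst_ext, hd', one_smul,
        HomTrivial.deg_self W hb, zero_smul, zero_add, map_sum]
      rw [Finset.sum_eq_zero, add_zero]
      intro i _
      rw [push_fst_ext, HomTrivial.deg_self W (hq i), zero_smul]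
    have h4 : b ∈ PS W Y Y.dim := by
      refine ih' b hb ?_
      rw [← h2, ← C.act_graph]
      exact aj_act_zero A (C.graph_mem _) (by rw [add_comm]) hx hx0
    have h5 : a ∈ PS W X X.dim := by
      refine ih a ha ?_
      rw [← h3, ← C.act_graph]
      exact aj_act_zero A (C.graph_mem _) (by rw [add_comm]) hx hx0
    have e : (X.prod Y).dim = X.dim + Y.dim := dim_prod X Y
    rw [hxe, e]
    refine Submodule.add_mem _ (Submodule.add_mem _ ?_ ?_) (Submodule.sum_mem _ fun i _ => ?_)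
    · have h6 : C.ext o b = C.act (C.span (snd X Y) (𝟙 _) (C.pull (fst X Y) o)) b := by
        rw [C.act_span, C.push_id, ChowTheory.ext]
      rw [h6]
      exact PS_act (c := X.dim + Y.dim) h4
        (C.span_mem _ _ (C.pull_mem _ ho) (by rw [dim_prod]; omega)) (by omega)
    · rw [← act_mulExt]
      exact PS_act h5 (mulExt_mem ho') (by omega)
    · exact PS_ext (algTrivial_zeroCycle hC hP hX _ (hp i))
        (algTrivial_zeroCycle hC hP hY _ (hq i))

lemma kernel_dominated (hC : C.Polarized) (hP : PointsArePairs C) (hY : ByCurves C Y)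
    {t : C.CH Y} (ht : HomTrivial W Y Y.dim t) (h0 : A.aj Y Y.dim t = 0) :
    t ∈ PS W Y Y.dim := by
  obtain ⟨P, hPc, f, r, u, q, hr, hu, hq, hfu⟩ := hY
  have h1 : C.act (C.span f (𝟙 P) u) t = u * C.pull f t := by rw [C.act_span, C.push_id]
  have hs : C.span f (𝟙 P) u ∈ C.gr (Y.prod P) (r + Y.dim) := C.span_mem _ _ hu (by omega)
  have hd : Y.dim + (r + Y.dim) = P.dim + Y.dim := by omega
  have h2 : u * C.pull f t ∈ PS W P P.dim := by
    rw [← h1]
    exact kernel_curveProd A hC hP hPc _ (ht.act hs hd) (aj_act_zero A hs hd ht h0)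
  have h3 : C.push f (u * C.pull f t) = q • t := by
    have h4 : C.push f u = q • 1 := hfu
    rw [C.push_mul, h4, smul_mul_assoc, one_mul]
  have h5 : C.push f (u * C.pull f t) ∈ PS W Y Y.dim := by
    rw [← C.act_graph]
    exact PS_act h2 (C.graph_mem f) (by omega)
  rw [h3] at h5
  have h6 := Submodule.smul_mem _ q⁻¹ h5
  rwa [smul_smul, inv_mul_cancel₀ hq, one_smul] at h6

/-- the classes `y × y'` are in the kernel of the Abel-Jacobi map -/
lemma aj_pair (hE : E.dim = 1) (hE' : E'.dim = 1) {y : C.CH E} {y' : C.CH E'}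
    (hy : HomTrivial W E 1 y) (hy' : HomTrivial W E' 1 y') :
    A.aj (E.prod E') 2 (C.ext y y') = 0 := by
  have h2 : mulExt C E y' ∈ C.gr (E.prod (E.prod E')) (E.dim + 1) := mulExt_mem hy'.1
  rw [← act_mulExt, aj_act A (c := E.dim + 1) h2 (by rw [hE]) hy]
  exact A.corr_eq_zero 1 2 (E.dim + 1) 1 _ h2 (by rw [hE]) rfl
    ((mulExt_homTrivial hy').kills 1) _

end Pool.Agent.T6.H15.BC
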