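import Pool.Agent.T6.H15.BC.Core

/-!
# Bloch's conjecture for correspondences to a surface: the equivalences
-/

open CategoryTheory CategoryTheory.Limits AlgebraicGeometry
open Pool.Agent.H914 Pool.Agent.H914.VarClass Pool.Agent.H914.VarClass.Obj Pool.Agent.R903
open Pool.Agent.R903.WeilTheory Pool.Agent.T6.H15.BB Pool.Agent.T6.H15.AJ

universe u v w

namespace Pool.Agent.T6.H15.BC

variable {k : Type u} [Field k] {𝒱 : VarClass k} {C : ChowTheory.{u, v} 𝒱}
  {W : WeilTheory.{u, v, w} C} {X Y Y' Z Z' E E' T : 𝒱.Obj}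

/-- the associativity isomorphism -/
noncomputable def asc (T Y X : 𝒱.Obj) : T.prod (Y.prod X) ⟶ (T.prod Y).prod X :=
  lift (p12 T Y X) (snd T (Y.prod X) ≫ snd Y X)

/-- `φ` as a correspondence from `T × Y` to `X` -/
noncomputable def curry (φ : C.CH (T.prod (Y.prod X))) : C.CH ((T.prod Y).prod X) :=
  C.span (p12 T Y X) (snd T (Y.prod X) ≫ snd Y X) φ

lemma act_act (φ : C.CH (T.prod (Y.prod X))) (u : C.CH T) (x : C.CH Y) :
    C.act (C.act φ u) x = C.act (curry φ) (C.ext u x) := by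
  rw [curry, C.act_span, C.act_apply (C.act φ u), C.act_apply φ, ← C.push_mul, C.push_comp,
    ChowTheory.ext, C.pull_mul, ← C.pull_comp, ← C.pull_comp, ← C.pull_comp, p12_fst, p12_snd,
    mul_assoc]

lemma curry_mem {c : ℕ} {φ : C.CH (T.prod (Y.prod X))} (h : φ ∈ C.gr _ c) :
    curry φ ∈ C.gr ((T.prod Y).prod X) c :=
  C.span_mem _ _ h (by simp only [dim_prod]; omega)

lemma curry_homTrivial {c : ℕ} {φ : C.CH (T.prod (Y.prod X))} (h : HomTrivial W _ c φ) :
    HomTrivial W ((T.prod Y).prod X) c (curry φ) :=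
  homTrivial_mk (curry_mem h.1) (by
    rw [curry, ChowTheory.span, W.cl_push, h.cl, map_zero])

lemma curry_pull (Γ : C.CH ((T.prod Y).prod X)) : curry (C.pull (asc T Y X) Γ) = Γ := by
  haveI : IsIso (asc T Y X) := isIso_assoc
  rw [curry, ChowTheory.span]
  exact C.push_pull_iso (asc T Y X) Γ

lemma dominates_self (X : 𝒱.Obj) : Dominates C X X :=
  ⟨𝟙 _, 0, 1, 1, by rw [zero_add], C.one_mem _, one_ne_zero, by
    change C.push (𝟙 _) 1 = _
    rw [C.push_id, one_smul]⟩

lemma byCurves_prod (hE : E.dim = 1) (hE' : E'.dim = 1) : ByCurves C (E.prod E') :=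
  ⟨E.prod E', .prod (.curve hE) (.curve hE'), dominates_self _⟩

lemma actsByDivisors_of_homTrivial {γ : C.CH (Y.prod X)} {c : ℕ}
    (h : HomTrivial W (Y.prod X) c γ) : ActsByDivisors W γ :=
  ⟨0, fun _ => 0, fun _ => 0, fun i => i.elim0, fun i => i.elim0, by
    have : subSum γ (fun _ : Fin 0 => extProd C (0 : C.CH Y) (0 : C.CH X)) = γ := by
      simp [subSum]
    rw [this]
    exact h.kills 2⟩

variable (A : AJTheory W)

theorem main_tfae (hC : C.Polarized) (hP : PointsArePairs C) (X : 𝒱.Obj) (hX : X.dim = 2) :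
    [ BlochFor A X, PairsFor W X, ZeroCyclesFor A X, AlgKernelFor A X, AlgKernelAll A X,
      DivisorsFor W X, TriplesFor W X ].TFAE := by
  tfae_have 1 → 2 := by
    intro h E E' Γ y y' hE hE' hΓ hy hy'
    refine h (E.prod E') Γ _ (dim2 hE hE') (byCurves_prod hE hE') hΓ.1
      (actsByDivisors_of_homTrivial hΓ) ?_ (aj_pair A hE hE' hy hy')
    exact hy.ext hy'.1
  tfae_have 2 → 1 := by
    intro h Y Γ t hY hdom hΓ hD ht h0
    have h0' : A.aj Y 2 t = 0 := h0
    have h1 : t ∈ PS W Y 2 := by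
      have := kernel_dominated A hC hP hdom (t := t) (by rwa [hY]) (by rwa [hY])
      rwa [hY] at this
    obtain ⟨n, D, D', hD1, hD2, hk⟩ := hD
    have hsub : subSum Γ (fun i => extProd C (D i) (D' i)) ∈ C.gr (Y.prod X) 2 :=
      Submodule.sub_mem _ hΓ (Submodule.sum_mem _ fun i _ => C.ext_mem (hD1 i) (hD2 i))
    have h2 := h.kill2 hC hY h1 hsub hk
    have h3 : C.act (subSum Γ fun i => extProd C (D i) (D' i)) t = C.act Γ t := by
      rw [subSum, C.act_sub, LinearMap.sub_apply, act_sum_apply, Finset.sum_eq_zero,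
        sub_zero]
      intro i _
      rw [extProd_eq, C.act_ext, deg_eq_zero W (C.mul_mem ht.1 (hD1 i)) (by omega), zero_smul]
    rw [ActsNull, corrAct_eq, ← h3, h2]
  tfae_have 2 → 3 := by
    intro h Y Γ t hdom hΓ ht h0
    exact h.kill (kernel_dominated A hC hP hdom ht h0) hΓ (add_comm _ _)
  tfae_have 3 → 2 := by
    intro h E E' Γ y y' hE hE' hΓ hy hy'
    refine h (E.prod E') Γ _ (byCurves_prod hE hE') hΓ ?_ ?_
    · rw [dim2 hE hE']; exact hy.ext hy'.1
    · rw [dim2 hE hE']; exact aj_pair A hE hE' hy hy'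
  tfae_have 2 → 5 := by
    intro h Y n c δ x hd hδ h0 hx
    obtain ⟨ι, _, T, φ, u, hT, hφ, hu, rfl⟩ := hδ.doublyTrivial A hC h0
    rw [ActsNull, corrAct_eq, act_sum_apply]
    refine Finset.sum_eq_zero fun i _ => ?_
    rw [corrAct_eq, act_act]
    exact h.kill (PS_ext (algTrivial_self (hT i) (hu i)) hx) (curry_homTrivial (hφ i))
      (by rw [dim_prod, hT i]; omega)
  tfae_have 5 → 4 := by
    intro h E δ y hE hδ h0 hy
    exact h E 1 2 δ y (by rw [hE]) hδ h0 (algTrivial_self hE hy)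
  tfae_have 4 → 2 := by
    intro h E E' Γ y y' hE hE' hΓ hy hy'
    have h1 : HomTrivial W (E.prod (E'.prod X)) 2 (C.pull (asc E E' X) Γ) := hΓ.pull' _
    have h2 := doublyTrivial_single hE h1 hy
    have h3 : corrAct C _ y' = 0 := h E' _ y' hE' h2.algTrivial (h2.aj A) hy'
    rw [corrAct_eq, act_act, curry_pull] at h3
    exact h3
  tfae_have 2 → 7 := by
    intro h V f a b c hd x y z hx hy hz
    have h1 : HomTrivial W ((V.prod V).prod X) (c + V.dim + 2) (C.span (Obj.diag V) f z) :=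
      homTrivial_mk (C.span_mem _ _ hz.1 (by simp only [dim_prod]; omega)) (by
        rw [ChowTheory.span, W.cl_push, hz.cl, map_zero])
    have h2 := h.kill (PS_ext hx hy) h1 (by rw [dim_prod]; omega)
    rw [C.act_span, C.pull_diag_ext, mul_comm] at h2
    exact h2
  tfae_have 7 → 6 := fun h V f hV => h V f 1 1 2 (by rw [hV])
  tfae_have 6 → 2 := by
    intro h E E' Γ y y' hE hE' hΓ hy hy'
    have h1 := h ((E.prod E').prod X) (snd _ _) (by rw [dim_prod, dim2 hE hE', hX])
      (C.pull (fst _ _) (C.pull (fst E E') y))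
      (C.pull (fst _ _) (C.pull (snd E E') y')) Γ
      (((algTrivial_self hE hy).pull _).pull _) (((algTrivial_self hE' hy').pull _).pull _) hΓ
    have h2 : C.push (snd (E.prod E') X) (C.pull (fst _ _) (C.pull (fst E E') y) *
      C.pull (fst _ _) (C.pull (snd E E') y') * Γ) = 0 := h1
    rw [ActsNull, corrAct_eq, extProd_eq, C.act_apply, ChowTheory.ext, C.pull_mul, mul_comm, h2]
  tfae_finish

end Pool.Agent.T6.H15.BC
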