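import Pool.Agent.T6.H15.BC.Main

/-!
# Bloch's conjecture for correspondences to a surface: all sources, and products of three curves
-/

open CategoryTheory CategoryTheory.Limits AlgebraicGeometry
open Pool.Agent.H914 Pool.Agent.H914.VarClass Pool.Agent.H914.VarClass.Obj Pool.Agent.R903
open Pool.Agent.R903.WeilTheory Pool.Agent.T6.H15.BB Pool.Agent.T6.H15.AJ

universe u v w

namespace Pool.Agent.T6.H15.BC

variable {k : Type u} [Field k] {𝒱 : VarClass k} {C : ChowTheory.{u, v} 𝒱}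
  {W : WeilTheory.{u, v, w} C} {X Y Y' Z Z' E E' T P : 𝒱.Obj}

lemma act_opLg (w : C.CH (Y.prod Y')) (γ : C.CH (X.prod Y)) :
    C.act (opLg X w) γ = C.comp γ w := by
  rw [opLg, C.act_span, ChowTheory.comp, mul_comm]

lemma opLg_homTrivial {c : ℕ} {w : C.CH (Y.prod Y')} (h : HomTrivial W (Y.prod Y') c w) :
    HomTrivial W ((X.prod Y).prod (X.prod Y')) (c + X.dim) (opLg X w) :=
  homTrivial_mk (C.span_mem _ _ (C.pull_mem _ h.1) (by simp only [dim_prod]; omega)) (by
    rw [opLg, ChowTheory.span, W.cl_push, W.cl_pull, h.cl, map_zero, map_zero])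

lemma HomTrivial.comp_left {c d r : ℕ} {α : C.CH (X.prod Y)} {β : C.CH (Y.prod Z)}
    (hα : HomTrivial W (X.prod Y) c α) (hβ : β ∈ C.gr (Y.prod Z) d) (h : c + d = r + Y.dim) :
    HomTrivial W (X.prod Z) r (C.comp α β) :=
  homTrivial_mk (C.comp_mem hα.1 hβ h) (by
    rw [ChowTheory.comp, W.cl_push, W.cl_mul, W.cl_pull, W.cl_pull, hα.cl, map_zero, zero_mul,
      map_zero])

variable (A : AJTheory W)

/-- the composite of two homologically trivial correspondences is in the kernel of the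
Abel-Jacobi map -/
lemma aj_comp {n c r : ℕ} {γ : C.CH (X.prod Y)} {Γ : C.CH (Y.prod Z)}
    (hγ : HomTrivial W (X.prod Y) n γ) (hΓ : HomTrivial W (Y.prod Z) c Γ)
    (h : n + c = r + Y.dim) (hn : 1 ≤ n) : A.aj (X.prod Z) r (C.comp γ Γ) = 0 := by
  have h1 := opLg_homTrivial (X := X) hΓ
  have hd : n + (c + X.dim) = r + (X.prod Y).dim := by rw [dim_prod]; omega
  rw [← act_opLg, aj_act A h1.1 hd hγ]
  exact A.corr_eq_zero n r (c + X.dim) (2 * n - 1) _ h1.1 hd (by omega) (h1.kills _) _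

/-- all sources -/
theorem all_sources (hC : C.Polarized) {X : 𝒱.Obj} (h : HomKernelFor A X) :
    AllSourcesFor A X := by
  intro Y n c Γ t hd hn hΓ ht h0
  obtain ⟨ι, _, E, γ, y, hE, hγ, hy, rfl⟩ := ht.doublyTrivial A hC h0
  rw [ActsNull, corrAct_eq, map_sum]
  refine Finset.sum_eq_zero fun i _ => ?_
  rw [corrAct_eq, ← C.act_comp]
  exact h (E i) _ (y i) (hE i) (HomTrivial.comp_right (hγ i).1 hΓ (by omega))
    (aj_comp A (hγ i) hΓ (by omega) hn) (hy i)

lemma PairsFor.dominated (h : PairsFor W P) (hP : P.dim = 2) (hX : X.dim = 2)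
    (hd : Dominates C P X) : PairsFor W X := by
  obtain ⟨f, r, u, q, hr, hu, hq, hf⟩ := hd
  intro E E' Γ y y' hE hE' hΓ hy hy'
  have h1 : corrAct C _ _ = 0 := h E E' (C.comp Γ (C.cograph f)) y y' hE hE'
    (HomTrivial.comp_left hΓ (C.cograph_mem f) rfl) hy hy'
  rw [corrAct_eq, C.act_comp, C.act_cograph] at h1
  have h2 : C.push f u = q • 1 := hf
  have h3 : C.push f (u * C.pull f (C.act Γ (extProd C y y'))) =
      q • C.act Γ (extProd C y y') := by
    rw [C.push_mul, h2, smul_mul_assoc, one_mul]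
  rw [h1, mul_zero, map_zero] at h3
  exact (smul_eq_zero.1 h3.symm).resolve_left hq

theorem bloch_iff (hC : C.Polarized) (hP : PointsArePairs C) (X : 𝒱.Obj) (hX : X.dim = 2) :
    BlochFor A X ↔ PairsFor W X := (main_tfae A hC hP X hX).out 0 1

theorem kernel_iff (hC : C.Polarized) (hP : PointsArePairs C) (X : 𝒱.Obj) (hX : X.dim = 2) :
    AlgKernelFor A X ↔ PairsFor W X := (main_tfae A hC hP X hX).out 3 1

theorem three_curves (hC : C.Polarized) (hP : PointsArePairs C) :
    BlochTwo A ↔ ThreeCurves A := by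
  constructor
  · intro h E₂ E₃ h2 h3
    have hX := dim2 h2 h3
    exact (kernel_iff A hC hP _ hX).2 ((bloch_iff A hC hP _ hX).1
      (h E₂ E₃ _ h2 h3 hX (dominates_self _)))
  · intro h E E' X hE hE' hX hd
    have hP2 := dim2 hE hE'
    exact (bloch_iff A hC hP X hX).2 (PairsFor.dominated
      ((kernel_iff A hC hP _ hP2).1 (h E E' hE hE')) hP2 hX hd)

end Pool.Agent.T6.H15.BC
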